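import Pool.Agent.LYN.All1

set_option autoImplicit false

open MeasureTheory Filter Topology

namespace Pool.Agent.Results.MP_54a40f_an.HaarNullExceptions

/-- For every aperiodic system `(Y, ν, S)` there is a random equivariant map `g` from `Y` to the
circle with `×p`, small in the mean, such that for EVERY equivariant map `f` the law of `f + g`
is, almost surely, an atomless `×p`-invariant measure for which almost every point is normal in
every base `q` multiplicatively independent of `p`. -/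
theorem result (p : ℕ) (hp : 2 ≤ p) (Y : Type) [MeasurableSpace Y]
    [MeasurableSpace.CountablySeparated Y] (ν : Measure Y) [IsProbabilityMeasure ν] (S : Y → Y)
    (hS : MeasurePreserving S ν ν) (hper : ∀ᵐ y ∂ν, ∀ n : ℕ, 0 < n → S^[n] y ≠ y)
    (δ : ℝ) (hδ : 0 < δ) :
    ∃ (Ω : Type) (_ : MeasurableSpace Ω) (P : Measure Ω) (g : Ω → Y → UnitAddCircle),
      IsProbabilityMeasure P ∧ Measurable (fun z : Ω × Y => g z.1 z.2) ∧
      (∀ ω, (∀ᵐ y ∂ν, g ω (S y) = p • g ω y) ∧ ∫ y, ‖g ω y‖ ∂ν ≤ δ) ∧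
      ∀ f : Y → UnitAddCircle, Measurable f → (∀ᵐ y ∂ν, f (S y) = p • f y) →
        ∀ᵐ ω ∂P, ∃ μ : Measure UnitAddCircle, μ = ν.map (fun y => f y + g ω y) ∧
          IsProbabilityMeasure μ ∧ (∀ x, μ {x} = 0) ∧
          μ.map (fun x : UnitAddCircle => p • x) = μ ∧
          ∀ᵐ x ∂μ, ∀ q : ℕ, 2 ≤ q → (∀ m n : ℕ, p ^ m = q ^ n → m = 0 ∧ n = 0) →
            ∀ a : ℤ, a ≠ 0 →
              Tendsto (fun N : ℕ => (1 / (N : ℂ)) *
                ∑ n ∈ Finset.range N, (fourier a : C(UnitAddCircle, ℂ)) ((q ^ n) • x))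
                atTop (𝓝 0) := by
  obtain ⟨Ω, mΩ, P, g, hP, hg, hω, hf⟩ := Pool.Agent.LYN.U_prev p hp Y ν S hS hper δ hδ
  refine ⟨Ω, mΩ, P, g, hP, hg, hω, fun f hfm hfe => ?_⟩
  filter_upwards [hf f hfm] with ω h
  have hm : Measurable fun y => f y + g ω y := hfm.add (hg.comp measurable_prodMk_left)
  exact ⟨_, rfl, Measure.isProbabilityMeasure_map hm.aemeasurable, (h.2 hfe).1, (h.2 hfe).2, h.1⟩

end Pool.Agent.Results.MP_54a40f_an.HaarNullExceptions
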