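import Pool.Agent.LYN.A_MAIN

set_option autoImplicit false

open MeasureTheory Filter Topology

namespace Pool.Agent.Results.MP_54a40f_an.Realization

/-- Every system which occurs as an atomless `×r`-invariant measure `μ₀` on the circle occurs, up
to isomorphism, as an atomless `×p`-invariant measure `μ`, `2 r ≤ p`, for which almost every point
is normal in every base `q` multiplicatively independent of `p`. -/
theorem result (p r : ℕ) (hr : 2 ≤ r) (hrp : 2 * r ≤ p) (μ₀ : Measure UnitAddCircle)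
    [IsProbabilityMeasure μ₀] (h0 : ∀ x, μ₀ {x} = 0)
    (hinv : μ₀.map (fun x : UnitAddCircle => r • x) = μ₀) :
    ∃ (μ : Measure UnitAddCircle) (φ : UnitAddCircle → UnitAddCircle) (X : Set UnitAddCircle),
      Measurable φ ∧ (∀ x, φ (r • x) = p • φ x) ∧ μ₀.map φ = μ ∧
      MeasurableSet X ∧ μ₀ Xᶜ = 0 ∧ Set.InjOn φ X ∧
      IsProbabilityMeasure μ ∧ (∀ x, μ {x} = 0) ∧
      μ.map (fun x : UnitAddCircle => p • x) = μ ∧
      ∀ᵐ x ∂μ, ∀ q : ℕ, 2 ≤ q → (∀ m n : ℕ, p ^ m = q ^ n → m = 0 ∧ n = 0) →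
        ∀ a : ℤ, a ≠ 0 →
          Tendsto (fun N : ℕ => (1 / (N : ℂ)) *
            ∑ n ∈ Finset.range N, (fourier a : C(UnitAddCircle, ℂ)) ((q ^ n) • x))
            atTop (𝓝 0) := by
  obtain ⟨φ, h1, h2, ⟨X, h3, h4, h5⟩, h6, h7, h8⟩ :=
    Pool.Agent.LYN.realizeT p r hr hrp μ₀ h0 hinv
  exact ⟨μ₀.map φ, φ, X, h1, h2, rfl, h3, h4, h5,
    Measure.isProbabilityMeasure_map h1.aemeasurable, h6, h7, h8⟩

end Pool.Agent.Results.MP_54a40f_an.Realization
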